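import Pool.Agent.CBG.StmtsA

/-!
# Row PUA of squad CBG: algebra of pull backs
-/

set_option autoImplicit false
set_option maxSynthPendingDepth 3

open scoped Manifold ContDiff Topology
open Set Filter MeasureTheory

namespace Pool.Agent.CBG.H13

open Pool.Agent.CBG

section

variable {n : ℕ} {E : Type} [TopologicalSpace E] [ChartedSpace (Ed n) E] [IsManifold (𝓡 n) ∞ E]

theorem pull_apply (g : Met (n := n) E) {W : Type} [NormedAddCommGroup W] [NormedSpace ℝ W]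
    (Ψ : W → E) (x v w : W) :
    pull g Ψ x v w = g.inner (Ψ x) (mfderiv 𝓘(ℝ, W) (𝓡 n) Ψ x v)
      (mfderiv 𝓘(ℝ, W) (𝓡 n) Ψ x w) := rfl

theorem pull_comp (g : Met (n := n) E) (f : E → E) (ψ : Ed n → E) (x : Ed n)
    (hf : MDifferentiableAt (𝓡 n) (𝓡 n) f (ψ x)) (hψ : MDifferentiableAt 𝓘(ℝ, Ed n) (𝓡 n) ψ x)
    (v w : Ed n) :
    pull g (f ∘ ψ) x v w = g.inner (f (ψ x))
      (mfderiv (𝓡 n) (𝓡 n) f (ψ x) (mfderiv 𝓘(ℝ, Ed n) (𝓡 n) ψ x v))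
      (mfderiv (𝓡 n) (𝓡 n) f (ψ x) (mfderiv 𝓘(ℝ, Ed n) (𝓡 n) ψ x w)) := by
  rw [pull_apply, mfderiv_comp x hf hψ]
  rfl

end

theorem pua : PuaStmt := by
  intro n E _ _ _ g
  refine ⟨?_, ?_, ?_, ?_, ?_⟩
  · intro W _ _ Ψ x v w
    rw [pull_apply, pull_apply]
    exact g.symm _ _ _
  · intro ψ x hinj v hv
    rw [pull_apply]
    apply g.pos
    intro h0
    apply hv
    apply hinj
    rw [h0]
    exact (map_zero _).symm
  · intro f ψ x hf hψ hc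
    obtain ⟨c, hc0, hc1⟩ := hc (ψ x)
    refine ⟨c, hc0, ?_⟩
    ext v w
    have h1 := pull_comp g f ψ x hf hψ v w
    have h2 := hc1 (mfderiv 𝓘(ℝ, Ed n) (𝓡 n) ψ x v) (mfderiv 𝓘(ℝ, Ed n) (𝓡 n) ψ x w)
    rw [h1]
    exact h2
  · intro lam f ψ x hf hψ hb v
    have h2 := hb (ψ x) (mfderiv 𝓘(ℝ, Ed n) (𝓡 n) ψ x v)
    rw [pull_comp g f ψ x hf hψ, pull_apply]
    exact h2
  · intro W W' _ _ _ _ Ψ A b x hΨ v w
    have hA : MDifferentiableAt 𝓘(ℝ, W) 𝓘(ℝ, W') (fun y => A y + b) x :=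
      (A.differentiableAt.add_const b).mdifferentiableAt
    have h1 : mfderiv 𝓘(ℝ, W) 𝓘(ℝ, W') (fun y => A y + b) x = A := by
      rw [mfderiv_eq_fderiv, fderiv_add_const]
      exact A.fderiv
    have h2 := mfderiv_comp (I := 𝓘(ℝ, W)) (I' := 𝓘(ℝ, W')) (I'' := 𝓡 n) x
      (g := Ψ) (f := fun y => A y + b) hΨ hA
    rw [h1] at h2
    rw [pull_apply, pull_apply]
    have h3 : mfderiv 𝓘(ℝ, W) (𝓡 n) (fun y => Ψ (A y + b)) x =
      (mfderiv 𝓘(ℝ, W') (𝓡 n) Ψ (A x + b)).comp A := h2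
    rw [h3]
    rfl

end Pool.Agent.CBG.H13
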